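import Mathlib

/-!
In a finitely generated abelian group, an element none of whose `N ^ k`-th powers is trivial is
not a `q`-th power for some `q` prime to `N`.
-/

set_option autoImplicit false

namespace Pool.Agent.FBT

universe u v

theorem exists_not_pow (B : Type u) [CommGroup B] [Group.FG B] (N : ℕ) (b : B)
    (hb : ∀ k : ℕ, b ^ (N ^ k) ≠ 1) :
    ∃ q : ℕ, 0 < q ∧ Nat.Coprime q N ∧ ∀ c : B, c ^ q ≠ b := by
  obtain ⟨ι, j, _, _, p, hp, e, ⟨φ⟩⟩ := CommGroup.equiv_free_prod_prod_multiplicative_zmod B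
  by_cases h1 : ∃ a : j, (φ b).1 a ≠ 1
  · obtain ⟨a, ha⟩ := h1
    set x : ℤ := Multiplicative.toAdd ((φ b).1 a) with hx
    have hx0 : x ≠ 0 := fun h0 => ha (by
      apply Multiplicative.toAdd.injective
      rw [← hx, h0]; rfl)
    refine ⟨N * x.natAbs + 1, Nat.succ_pos _, ?_, ?_⟩
    · rw [Nat.coprime_mul_left_add_left]
      exact Nat.coprime_one_left N
    · intro c hc
      have h2 : ((N * x.natAbs + 1 : ℕ) : ℤ) ∣ x := by
        refine ⟨Multiplicative.toAdd ((φ c).1 a), ?_⟩
        have h3 : Multiplicative.toAdd ((φ b).1 a)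
            = (N * x.natAbs + 1) • Multiplicative.toAdd ((φ c).1 a) := by
          rw [← toAdd_pow, ← Pi.pow_apply, ← Prod.pow_fst, ← map_pow, hc]
        rw [← nsmul_eq_mul, ← h3]
      have h3 := Int.le_of_dvd (by positivity : (0 : ℤ) < |x|) ((dvd_abs _ _).2 h2)
      have hN : 0 < N := by
        rcases Nat.eq_zero_or_pos N with h0 | h0
        · exfalso
          exact hb 1 (by simp [h0])
        · exact h0
      have h4 : (x.natAbs : ℤ) = |x| := Int.natCast_natAbs x
      have h5 : (1 : ℤ) ≤ N := by exact_mod_cast hN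
      push_cast at h3
      have h6 : (0 : ℤ) ≤ |x| := abs_nonneg x
      nlinarith
  · push Not at h1
    by_cases h2 : ∃ i : ι, (φ b).2 i ≠ 1 ∧ ¬ p i ∣ N
    · obtain ⟨i, hi, hpi⟩ := h2
      refine ⟨p i ^ e i, pow_pos (hp i).pos _, ?_, ?_⟩
      · exact Nat.Coprime.pow_left _ ((hp i).coprime_iff_not_dvd.2 hpi)
      · intro c hc
        apply hi
        rw [← hc, map_pow, Prod.pow_snd, Pi.pow_apply]
        apply Multiplicative.toAdd.injective
        rw [toAdd_pow, toAdd_one, nsmul_eq_mul]
        simp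
    · exfalso
      push Not at h2
      apply hb (∑ i, e i)
      apply φ.injective
      rw [map_pow, map_one]
      refine Prod.ext ?_ ?_
      · rw [Prod.pow_fst, Prod.fst_one]
        funext a
        rw [Pi.pow_apply, h1 a, one_pow]; rfl
      · rw [Prod.pow_snd, Prod.snd_one]
        funext i
        rw [Pi.pow_apply]
        by_cases hi : (φ b).2 i = 1
        · rw [hi, one_pow]; rfl
        · have hd : p i ^ e i ∣ N ^ (∑ i, e i) := by
            refine (pow_dvd_pow_of_dvd (h2 i hi) (e i)).trans (pow_dvd_pow N ?_)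
            exact Finset.single_le_sum (f := e) (fun _ _ => Nat.zero_le _) (Finset.mem_univ i)
          obtain ⟨t, ht⟩ := hd
          apply Multiplicative.toAdd.injective
          rw [toAdd_pow, ht, nsmul_eq_mul]
          simp

end Pool.Agent.FBT
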