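import Mathlib

/-!
Chains of differences of conjugates. For elements `h i` (indexed by `Fin (N+1)`), a list of pairs
of indices and elements `z n`, the chain starting at `c` replaces `c` by the quotient of the
conjugates of `z c z⁻¹` by the two elements of the next pair.
-/

set_option autoImplicit false

namespace Pool.Agent.FBT

universe u v

/-- One step of a chain. -/
def stp {H : Type u} [Group H] (a b z c : H) : H :=
  (a * (z * c * z⁻¹) * a⁻¹) * (b * (z * c * z⁻¹) * b⁻¹)⁻¹

/-- The chain along a list of pairs. -/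
def chain {H : Type u} [Group H] {I : Type v} (h : I → H) : List (I × I) → (ℕ → H) → H → H
  | [], _, c => c
  | p :: l, z, c => chain h l (fun n => z (n + 1)) (stp (h p.1) (h p.2) (z 0) c)

section maps

variable {H : Type u} [Group H] {H' : Type*} [Group H'] {I : Type v}

theorem stp_map (φ : H →* H') (a b z c : H) : φ (stp a b z c) = stp (φ a) (φ b) (φ z) (φ c) := by
  simp [stp]

theorem chain_map (φ : H →* H') (h : I → H) (l : List (I × I)) (z : ℕ → H) (c : H) :
    φ (chain h l z c) = chain (fun i => φ (h i)) l (fun n => φ (z n)) (φ c) := by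
  induction l generalizing z c with
  | nil => rfl
  | cons p l ih => simp only [chain]; rw [ih, stp_map]

theorem stp_one (a b z : H) : stp a b z 1 = 1 := by simp [stp]

theorem chain_one (h : I → H) (l : List (I × I)) (z : ℕ → H) : chain h l z 1 = 1 := by
  induction l generalizing z with
  | nil => rfl
  | cons p l ih => simp only [chain]; rw [stp_one, ih]

theorem stp_mem (B : Subgroup H) [hB : B.Normal] (a b z : H) {c : H} (hc : c ∈ B) :
    stp a b z c ∈ B := by
  unfold stp
  exact B.mul_mem (hB.conj_mem _ (hB.conj_mem _ hc _) _)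
    (B.inv_mem (hB.conj_mem _ (hB.conj_mem _ hc _) _))

theorem chain_mem (B : Subgroup H) [hB : B.Normal] (h : I → H) (l : List (I × I)) (z : ℕ → H)
    {c : H} (hc : c ∈ B) : chain h l z c ∈ B := by
  induction l generalizing z c with
  | nil => exact hc
  | cons p l ih => exact ih _ (stp_mem B _ _ _ hc)

theorem stp_mul (B : Subgroup H) [hB : B.Normal] (hab : ∀ x ∈ B, ∀ y ∈ B, x * y = y * x)
    (a b z : H) {c c' : H} (hc : c ∈ B) (hc' : c' ∈ B) :
    stp a b z (c * c') = stp a b z c * stp a b z c' := by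
  have h1 : ∀ x : H, x * (z * c * z⁻¹) * x⁻¹ ∈ B := fun x => hB.conj_mem _ (hB.conj_mem _ hc _) _
  have h2 : ∀ x : H, x * (z * c' * z⁻¹) * x⁻¹ ∈ B := fun x => hB.conj_mem _ (hB.conj_mem _ hc' _) _
  have e : ∀ x : H, x * (z * (c * c') * z⁻¹) * x⁻¹
      = (x * (z * c * z⁻¹) * x⁻¹) * (x * (z * c' * z⁻¹) * x⁻¹) := fun x => by group
  unfold stp
  rw [e a, e b]
  generalize ha1 : a * (z * c * z⁻¹) * a⁻¹ = p at *
  generalize ha2 : a * (z * c' * z⁻¹) * a⁻¹ = p' at *
  generalize hb1 : b * (z * c * z⁻¹) * b⁻¹ = r at *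
  generalize hb2 : b * (z * c' * z⁻¹) * b⁻¹ = r' at *
  have hp' : p' ∈ B := ha2 ▸ h2 a
  have hr : r ∈ B := hb1 ▸ h1 b
  have hr' : r' ∈ B := hb2 ▸ h2 b
  have k1 : r'⁻¹ * r⁻¹ = r⁻¹ * r'⁻¹ := hab _ (B.inv_mem hr') _ (B.inv_mem hr)
  have k2 : p' * r⁻¹ = r⁻¹ * p' := hab _ hp' _ (B.inv_mem hr)
  calc p * p' * (r * r')⁻¹ = p * (p' * (r'⁻¹ * r⁻¹)) := by group
    _ = p * (p' * r⁻¹) * r'⁻¹ := by rw [k1]; group
    _ = p * r⁻¹ * (p' * r'⁻¹) := by rw [k2]; group

theorem chain_mul (B : Subgroup H) [hB : B.Normal] (hab : ∀ x ∈ B, ∀ y ∈ B, x * y = y * x)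
    (h : I → H) (l : List (I × I)) (z : ℕ → H) {c c' : H} (hc : c ∈ B) (hc' : c' ∈ B) :
    chain h l z (c * c') = chain h l z c * chain h l z c' := by
  induction l generalizing z c c' with
  | nil => rfl
  | cons p l ih =>
    simp only [chain]
    rw [stp_mul B hab _ _ _ hc hc', ih _ (stp_mem B _ _ _ hc) (stp_mem B _ _ _ hc')]

theorem chain_inv (B : Subgroup H) [hB : B.Normal] (hab : ∀ x ∈ B, ∀ y ∈ B, x * y = y * x)
    (h : I → H) (l : List (I × I)) (z : ℕ → H) {c : H} (hc : c ∈ B) :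
    chain h l z c⁻¹ = (chain h l z c)⁻¹ := by
  have := chain_mul B hab h l z (B.inv_mem hc) hc
  rw [inv_mul_cancel, chain_one] at this
  exact eq_inv_of_mul_eq_one_left this.symm

/-- If two of the elements of a pair of the list act in the same way on an abelian normal
subgroup, the chain dies on that subgroup. -/
theorem chain_eq_one (A : Subgroup H) [hA : A.Normal] (hab : ∀ x ∈ A, ∀ y ∈ A, x * y = y * x)
    (h : I → H) (l : List (I × I)) (z : ℕ → H) {c : H} (hc : c ∈ A)
    (p : I × I) (hp : p ∈ l) (hpA : (h p.2)⁻¹ * h p.1 ∈ A) : chain h l z c = 1 := by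
  induction l generalizing z c with
  | nil => simp at hp
  | cons q l ih =>
    simp only [chain]
    rcases List.mem_cons.1 hp with rfl | hp
    · have hzc : z 0 * c * (z 0)⁻¹ ∈ A := hA.conj_mem _ hc _
      have key : h p.1 * (z 0 * c * (z 0)⁻¹) * (h p.1)⁻¹
          = h p.2 * (z 0 * c * (z 0)⁻¹) * (h p.2)⁻¹ := by
        have e := hab _ hpA _ hzc
        generalize z 0 * c * (z 0)⁻¹ = y at *
        calc h p.1 * y * (h p.1)⁻¹ = h p.2 * (((h p.2)⁻¹ * h p.1) * y) * (h p.1)⁻¹ := by group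
          _ = h p.2 * (y * ((h p.2)⁻¹ * h p.1)) * (h p.1)⁻¹ := by rw [e]
          _ = h p.2 * y * (h p.2)⁻¹ := by group
      have : stp (h p.1) (h p.2) (z 0) c = 1 := by
        unfold stp; rw [key]; group
      rw [this, chain_one]
    · exact ih _ (stp_mem A _ _ _ hc) hp

end maps

/-- All ordered pairs of different elements of `Fin n`. -/
def prs (n : ℕ) : List (Fin n × Fin n) :=
  ((List.finRange n).product (List.finRange n)).filter (fun p => p.1 ≠ p.2)

theorem mem_prs {n : ℕ} (p : Fin n × Fin n) : p ∈ prs n ↔ p.1 ≠ p.2 := by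
  have : p ∈ (List.finRange n).product (List.finRange n) := by
    obtain ⟨a, b⟩ := p
    exact List.mem_product.2 ⟨List.mem_finRange a, List.mem_finRange b⟩
  simp [prs, List.mem_filter, this]

/-- In a group with an abelian normal subgroup of index `N`, the chain over all pairs of `N + 1`
elements is trivial on that subgroup. -/
theorem chain_prs_eq_one {H : Type u} [Group H] (A : Subgroup H) [hA : A.Normal]
    (hab : ∀ x ∈ A, ∀ y ∈ A, x * y = y * x) [Finite (H ⧸ A)] {N : ℕ}
    (hN : Nat.card (H ⧸ A) ≤ N) (h : Fin (N + 1) → H) (z : ℕ → H) {c : H} (hc : c ∈ A) :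
    chain h (prs (N + 1)) z c = 1 := by
  classical
  have : Fintype (H ⧸ A) := Fintype.ofFinite _
  obtain ⟨i, j, hij, he⟩ : ∃ i j : Fin (N + 1), i ≠ j ∧
      (QuotientGroup.mk (h i) : H ⧸ A) = QuotientGroup.mk (h j) := by
    apply Fintype.exists_ne_map_eq_of_card_lt (fun i : Fin (N+1) => (QuotientGroup.mk (h i) : H ⧸ A))
    rw [Fintype.card_fin, ← Nat.card_eq_fintype_card]; omega
  exact chain_eq_one A hab h _ z hc (j, i) ((mem_prs _).2 (fun e => hij e.symm))
    (QuotientGroup.eq.1 he)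

/-- The converse choice: if from every nontrivial `c` in `M` each pair has a conjugator with
nontrivial next step in `M`, then some chain is nontrivial. -/
theorem exists_chain_ne_one {H : Type u} [Group H] {I : Type v} (M : Subgroup H) [hM : M.Normal]
    (h : I → H) (l : List (I × I))
    (step : ∀ p ∈ l, ∀ c ∈ M, c ≠ 1 → ∃ z : H, stp (h p.1) (h p.2) z c ≠ 1)
    {c : H} (hc : c ∈ M) (hc1 : c ≠ 1) : ∃ z : ℕ → H, chain h l z c ≠ 1 := by
  induction l generalizing c with
  | nil => exact ⟨fun _ => 1, hc1⟩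
  | cons p l ih =>
    obtain ⟨z0, hz0⟩ := step p (by simp) c hc hc1
    obtain ⟨z, hz⟩ := ih (fun q hq => step q (List.mem_cons_of_mem _ hq))
      (stp_mem M (h p.1) (h p.2) z0 hc) hz0
    refine ⟨fun n => if n = 0 then z0 else z (n - 1), ?_⟩
    simpa [chain] using hz

end Pool.Agent.FBT
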