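import Mathlib

/-!
A group with an abelian normal subgroup of index at most `N` satisfies all laws of a group `G`
as soon as it satisfies all laws of `G` in `N + 1` variables.
-/

set_option autoImplicit false

namespace Pool.Agent.FBT

universe u v w

theorem exists_letters {ι : Type w} [DecidableEq ι] (x : FreeGroup ι) :
    ∃ s : Finset ι, ∀ (H : Type v) [Group H] (h h' : ι → H), (∀ i ∈ s, h i = h' i) →
      FreeGroup.lift h x = FreeGroup.lift h' x := by
  induction x using FreeGroup.induction_on with
  | C1 => exact ⟨∅, fun H _ h h' _ => by simp⟩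
  | of i => exact ⟨{i}, fun H _ h h' e => by simpa using e i (by simp)⟩
  | inv_of i ih =>
    obtain ⟨s, hs⟩ := ih
    exact ⟨s, fun H _ h h' e => by rw [map_inv, map_inv, hs H h h' e]⟩
  | mul x y hx hy =>
    obtain ⟨s, hs⟩ := hx
    obtain ⟨t, ht⟩ := hy
    refine ⟨s ∪ t, fun H _ h h' e => ?_⟩
    rw [map_mul, map_mul, hs H h h' (fun i hi => e i (Finset.mem_union_left _ hi)),
      ht H h h' (fun i hi => e i (Finset.mem_union_right _ hi))]

theorem lift_map {α β : Type*} {H : Type v} [Group H] (c : α → β) (g : β → H) (x : FreeGroup α) :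
    FreeGroup.lift g (FreeGroup.map c x) = FreeGroup.lift (fun i => g (c i)) x := by
  have : (FreeGroup.lift g).comp (FreeGroup.map c) = FreeGroup.lift (fun i => g (c i)) := by
    ext; simp
  exact DFunLike.congr_fun this x

theorem hom_lift {α : Type*} {H : Type v} [Group H] {H' : Type w} [Group H'] (φ : H →* H')
    (g : α → H) (x : FreeGroup α) :
    φ (FreeGroup.lift g x) = FreeGroup.lift (fun i => φ (g i)) x := by
  have : φ.comp (FreeGroup.lift g) = FreeGroup.lift (fun i => φ (g i)) := by
    ext; simp
  exact DFunLike.congr_fun this x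

/-- Laws in few variables give all values with few different arguments. -/
theorem lift_eq_one_of_few {G : Type u} [Group G] {H : Type v} [Group H] {N : ℕ}
    (hL : ∀ x : FreeGroup (Fin (N + 1)), (∀ f : Fin (N + 1) → G, FreeGroup.lift f x = 1) →
      ∀ f : Fin (N + 1) → H, FreeGroup.lift f x = 1)
    {α : Type*} (x : FreeGroup α) (hx : ∀ f : α → G, FreeGroup.lift f x = 1)
    {T : Type*} [Finite T] (hT : Nat.card T ≤ N + 1) (c : α → T) (g : T → H) :
    FreeGroup.lift (fun i => g (c i)) x = 1 := by
  classical
  have : Fintype T := Fintype.ofFinite T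
  obtain ⟨e⟩ : Nonempty (T ↪ Fin (N + 1)) := by
    apply Function.Embedding.nonempty_of_card_le
    rw [Fintype.card_fin, ← Nat.card_eq_fintype_card]; exact hT
  have h1 : FreeGroup.lift (Function.extend e g 1) (FreeGroup.map (fun i => e (c i)) x) = 1 := by
    apply hL
    intro f
    rw [lift_map]
    exact hx _
  rw [lift_map] at h1
  simpa [e.injective.extend_apply] using h1

section twist

variable {H : Type v} [Group H] (K : Subgroup H) [hK : K.Normal]
  {α : Type*}

include hK in
theorem twist_mem (r k : α → H) (hk : ∀ i, k i ∈ K) (x : FreeGroup α) :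
    FreeGroup.lift (fun i => k i * r i) x * (FreeGroup.lift r x)⁻¹ ∈ K := by
  have h1 : (QuotientGroup.mk' K) (FreeGroup.lift (fun i => k i * r i) x)
      = (QuotientGroup.mk' K) (FreeGroup.lift r x) := by
    rw [hom_lift, hom_lift]
    congr 2
    funext i
    rw [map_mul]
    have : (QuotientGroup.mk' K) (k i) = 1 := (QuotientGroup.eq_one_iff _).2 (hk i)
    rw [this, one_mul]
  rw [← QuotientGroup.eq_one_iff]
  change (QuotientGroup.mk' K) _ = 1
  rw [map_mul, map_inv, h1, mul_inv_cancel]

theorem twist_mul (hab : ∀ x ∈ K, ∀ y ∈ K, x * y = y * x) (r : α → H) (x : FreeGroup α) :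
    ∀ k k' : α → H, (∀ i, k i ∈ K) → (∀ i, k' i ∈ K) →
    FreeGroup.lift (fun i => (k i * k' i) * r i) x
      = FreeGroup.lift (fun i => k i * r i) x * (FreeGroup.lift r x)⁻¹
        * FreeGroup.lift (fun i => k' i * r i) x := by
  induction x using FreeGroup.induction_on with
  | C1 => intro k k' _ _; simp
  | of i => intro k k' _ _; simp [mul_assoc]
  | inv_of i ih =>
    intro k k' hk hk'
    have e := ih k k' hk hk'
    have ha := twist_mem K r k hk (FreeGroup.of i)
    have hb := twist_mem K r k' hk' (FreeGroup.of i)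
    have hc := hab _ ha _ hb
    rw [map_inv, map_inv, map_inv, map_inv]
    change FreeGroup.lift (fun i => (k i * k' i) * r i) (FreeGroup.of i)
      = FreeGroup.lift (fun i => k i * r i) (FreeGroup.of i) * (FreeGroup.lift r (FreeGroup.of i))⁻¹
        * FreeGroup.lift (fun i => k' i * r i) (FreeGroup.of i) at e
    change (FreeGroup.lift (fun i => (k i * k' i) * r i) (FreeGroup.of i))⁻¹
      = (FreeGroup.lift (fun i => k i * r i) (FreeGroup.of i))⁻¹
        * (FreeGroup.lift r (FreeGroup.of i))⁻¹⁻¹
        * (FreeGroup.lift (fun i => k' i * r i) (FreeGroup.of i))⁻¹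
    rw [e]
    generalize FreeGroup.lift (fun i => k i * r i) (FreeGroup.of i) = a at *
    generalize FreeGroup.lift (fun i => k' i * r i) (FreeGroup.of i) = b at *
    generalize FreeGroup.lift r (FreeGroup.of i) = R at *
    have : b * R⁻¹ * a = a * R⁻¹ * b := by
      have := congrArg (fun t => t * R) hc
      simpa [mul_assoc] using this.symm
    rw [← this]
    group
  | mul x y hx hy =>
    intro k k' hk hk'
    have e1 := hx k k' hk hk'
    have e2 := hy k k' hk hk'
    have ha := twist_mem K r k hk y
    have hb := twist_mem K r k' hk' x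
    have hb' := hK.conj_mem _ hb (FreeGroup.lift r x)⁻¹
    have hc := hab _ ha _ hb'
    rw [map_mul, map_mul, map_mul, map_mul, e1, e2]
    generalize FreeGroup.lift (fun i => k i * r i) x = a at *
    generalize FreeGroup.lift (fun i => k' i * r i) x = b at *
    generalize FreeGroup.lift r x = R at *
    generalize FreeGroup.lift (fun i => k i * r i) y = a' at *
    generalize FreeGroup.lift (fun i => k' i * r i) y = b' at *
    generalize FreeGroup.lift r y = R' at *
    have e3 : R⁻¹ * b * (a' * R'⁻¹) = a' * R'⁻¹ * (R⁻¹ * b) := by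
      have := hc.symm
      simpa [mul_assoc] using this
    calc a * R⁻¹ * b * (a' * R'⁻¹ * b') = a * (R⁻¹ * b * (a' * R'⁻¹)) * b' := by group
      _ = a * (a' * R'⁻¹ * (R⁻¹ * b)) * b' := by rw [e3]
      _ = a * a' * (R * R')⁻¹ * (b * b') := by group

end twist

theorem laws_of_few {G : Type u} [Group G] {H : Type v} [Group H] (K : Subgroup H) [hK : K.Normal]
    (hab : ∀ x ∈ K, ∀ y ∈ K, x * y = y * x) {N : ℕ} [Finite (H ⧸ K)]
    (hN : Nat.card (H ⧸ K) ≤ N)
    (hL : ∀ x : FreeGroup (Fin (N + 1)), (∀ f : Fin (N + 1) → G, FreeGroup.lift f x = 1) →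
      ∀ f : Fin (N + 1) → H, FreeGroup.lift f x = 1)
    (x : FreeGroup ℕ) (hx : ∀ f : ℕ → G, FreeGroup.lift f x = 1) (h : ℕ → H) :
    FreeGroup.lift h x = 1 := by
  classical
  let r : ℕ → H := fun i => (QuotientGroup.mk (h i) : H ⧸ K).out
  let k : ℕ → H := fun i => h i * (r i)⁻¹
  have hk : ∀ i, k i ∈ K := by
    intro i
    have : (QuotientGroup.mk (r i) : H ⧸ K) = QuotientGroup.mk (h i) := Quotient.out_eq' _
    rw [← QuotientGroup.eq_one_iff]
    change (QuotientGroup.mk' K) (h i * (r i)⁻¹) = 1
    rw [map_mul, map_inv]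
    change (QuotientGroup.mk (h i) : H ⧸ K) * (QuotientGroup.mk (r i) : H ⧸ K)⁻¹ = 1
    rw [this, mul_inv_cancel]
  have hr1 : FreeGroup.lift r x = 1 :=
    lift_eq_one_of_few hL x hx (T := H ⧸ K) (by omega) (fun i => QuotientGroup.mk (h i))
      (fun q => q.out)
  have hsingle : ∀ a : ℕ, FreeGroup.lift (fun i => (if i = a then k a else 1) * r i) x = 1 := by
    intro a
    have := lift_eq_one_of_few hL x hx (T := Option (H ⧸ K))
      (by rw [Finite.card_option]; omega)
      (fun i => if i = a then none else some (QuotientGroup.mk (h i)))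
      (fun q => Option.elim q (k a * r a) (fun t => t.out))
    refine Eq.trans ?_ this
    congr 2
    funext i
    by_cases hi : i = a
    · subst hi; simp
    · simp [hi, r]
  obtain ⟨s, hs⟩ := exists_letters.{v} x
  have hfin : ∀ t : Finset ℕ, FreeGroup.lift (fun i => (if i ∈ t then k i else 1) * r i) x = 1 := by
    intro t
    induction t using Finset.induction_on with
    | empty => simpa using hr1
    | insert a t ha ih =>
      have e := twist_mul K hab r x (fun i => if i = a then k a else 1)
        (fun i => if i ∈ t then k i else 1) (fun i => by split_ifs; exacts [hk a, K.one_mem])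
        (fun i => by split_ifs; exacts [hk i, K.one_mem])
      rw [hsingle a, ih, hr1] at e
      simp only [inv_one, mul_one] at e
      refine Eq.trans ?_ e
      congr 2
      funext i
      by_cases hi : i = a
      · subst hi; simp [ha]
      · simp [hi]
  refine Eq.trans ?_ (hfin s)
  apply hs
  intro i hi
  simp [hi, k]

end Pool.Agent.FBT
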