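import Mathlib

/-!
Derived words, and the finiteness of finitely generated soluble groups of finite exponent.
-/

set_option autoImplicit false

namespace Pool.Agent.FBT

universe u v

open scoped commutatorElement

/-- The derived word of depth `n`, on letters indexed by the natural numbers. -/
def dd {H : Type u} [Group H] : ℕ → (ℕ → H) → H
  | 0, f => f 0
  | n + 1, f => ⁅dd n (fun k => f (2 * k)), dd n (fun k => f (2 * k + 1))⁆

section

variable {H : Type u} [Group H] {H' : Type v} [Group H']

theorem dd_map (φ : H →* H') (n : ℕ) (f : ℕ → H) : φ (dd n f) = dd n (fun k => φ (f k)) := by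
  induction n generalizing f with
  | zero => rfl
  | succ n ih => simp only [dd]; rw [map_commutatorElement, ih, ih]

theorem dd_mem (n : ℕ) (f : ℕ → H) : dd n f ∈ derivedSeries H n := by
  induction n generalizing f with
  | zero => simp
  | succ n ih =>
    simp only [dd]
    rw [derivedSeries_succ]
    exact Subgroup.commutator_mem_commutator (ih _) (ih _)

theorem closure_normal (X : Set H) (hX : ∀ x ∈ X, ∀ g : H, g * x * g⁻¹ ∈ X) :
    (Subgroup.closure X).Normal := by
  refine ⟨fun n hn g => ?_⟩
  induction hn using Subgroup.closure_induction with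
  | mem x hx => exact Subgroup.subset_closure (hX x hx g)
  | one => simp
  | mul a b _ _ ha hb =>
    have : g * (a * b) * g⁻¹ = (g * a * g⁻¹) * (g * b * g⁻¹) := by group
    rw [this]; exact Subgroup.mul_mem _ ha hb
  | inv a _ ha =>
    have : g * a⁻¹ * g⁻¹ = (g * a * g⁻¹)⁻¹ := by group
    rw [this]; exact Subgroup.inv_mem _ ha

theorem commutator_closure_le (X : Set H) (V : Subgroup H) [hV : V.Normal]
    (hX : ∀ x ∈ X, ∀ y ∈ X, ⁅x, y⁆ ∈ V) : ⁅Subgroup.closure X, Subgroup.closure X⁆ ≤ V := by
  have key : ∀ x y : H, ⁅x, y⁆ ∈ V ↔ Commute (QuotientGroup.mk x : H ⧸ V) (QuotientGroup.mk y) := by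
    intro x y
    rw [← QuotientGroup.eq_one_iff, ← QuotientGroup.mk'_apply, map_commutatorElement,
      commutatorElement_eq_one_iff_commute]
    rfl
  rw [Subgroup.commutator_le]
  have c1 : ∀ y ∈ X, ∀ x ∈ Subgroup.closure X, ⁅x, y⁆ ∈ V := by
    intro y hy x hx
    rw [key]
    induction hx using Subgroup.closure_induction with
    | mem x hx => exact (key _ _).1 (hX x hx y hy)
    | one => exact Commute.one_left _
    | mul a b _ _ ha hb => exact Commute.mul_left ha hb
    | inv a _ ha => exact Commute.inv_left ha
  intro x hx y hy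
  rw [key]
  induction hy using Subgroup.closure_induction with
  | mem y hy => exact (key _ _).1 (c1 y hy x hx)
  | one => exact Commute.one_right _
  | mul a b _ _ ha hb => exact Commute.mul_right ha hb
  | inv a _ ha => exact Commute.inv_right ha

theorem derivedSeries_le_closure (n : ℕ) :
    derivedSeries H n ≤ Subgroup.closure {x : H | ∃ f : ℕ → H, dd n f = x} := by
  induction n with
  | zero =>
    intro x _
    exact Subgroup.subset_closure ⟨fun _ => x, rfl⟩
  | succ n ih =>
    have hN : (Subgroup.closure {x : H | ∃ f : ℕ → H, dd (n + 1) f = x}).Normal := by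
      apply closure_normal
      rintro x ⟨f, rfl⟩ g
      exact ⟨fun k => MulAut.conj g (f k), (dd_map (MulAut.conj g).toMonoidHom (n + 1) f).symm⟩
    rw [derivedSeries_succ]
    refine (Subgroup.commutator_mono ih ih).trans (commutator_closure_le _ _ ?_)
    rintro x ⟨f, rfl⟩ y ⟨f', rfl⟩
    refine Subgroup.subset_closure ⟨fun k => if k % 2 = 0 then f (k / 2) else f' (k / 2), ?_⟩
    simp only [dd]
    congr 2
    · funext k
      simp
    · funext k
      have h1 : (2 * k + 1) % 2 = 1 := by omega
      have h2 : (2 * k + 1) / 2 = k := by omega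
      simp [h1, h2]

end

theorem finite_of_fg_of_pow (Q : Type u) [Group Q] [Group.FG Q] (N : ℕ) (hN : 0 < N)
    (hx : ∀ x : Q, x ^ N = 1) (n : ℕ) (hs : derivedSeries Q n = ⊥) : Finite Q := by
  have key : ∀ n, (derivedSeries Q n).index ≠ 0 := by
    intro n
    induction n with
    | zero => simp
    | succ n ih =>
      have : (derivedSeries Q n).FiniteIndex := ⟨ih⟩
      have hfg : Group.FG (derivedSeries Q n) := Subgroup.fg_of_index_ne_zero _
      have hfg2 : Group.FG (Abelianization (derivedSeries Q n)) :=
        QuotientGroup.fg (commutator (derivedSeries Q n))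
      have htor : IsMulTorsion (Abelianization (derivedSeries Q n)) := by
        intro x
        rw [isOfFinOrder_iff_pow_eq_one]
        refine ⟨N, hN, ?_⟩
        obtain ⟨y, rfl⟩ : ∃ y, Abelianization.of y = x := QuotientGroup.mk_surjective x
        have : y ^ N = 1 := Subtype.ext (by simpa using hx y)
        rw [← map_pow, this, map_one]
      have hfin : Finite (Abelianization (derivedSeries Q n)) :=
        CommGroup.finite_of_fg_isMulTorsion _ htor
      have hidx : (commutator (derivedSeries Q n)).index ≠ 0 := by
        rw [Subgroup.index_eq_card]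
        exact Nat.card_ne_zero.2 ⟨⟨1⟩, hfin⟩
      rw [derivedSeries_succ, ← Subgroup.map_subtype_commutator, Subgroup.index_map_subtype]
      exact mul_ne_zero hidx ih
  have := key n
  rw [hs, Subgroup.index_bot] at this
  exact Nat.finite_of_card_ne_zero this

end Pool.Agent.FBT
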