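import Pool.Agent.FBT.Chain
import Pool.Agent.FBT.Derive

/-!
The finite case: a finite group with an abelian normal subgroup `B` of exponent prime to `N`,
which satisfies the laws of `G` in `N + 1` variables and the chain condition on `B`, satisfies all
laws of `G` up to `N`-th powers.
-/

set_option autoImplicit false

namespace Pool.Agent.FBT

universe u v

open scoped commutatorElement

theorem pow_index_eq_one {K : Type v} [Group K] (P : Subgroup K) [P.FiniteIndex]
    (hab : ∀ x ∈ P, ∀ y ∈ P, x * y = y * x) (b : K) (hb : b ∈ commutator K)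
    (hc : ∀ g : K, g * b = b * g) : b ^ P.index = 1 := by
  let _ : CommGroup P :=
    { (inferInstance : Group P) with
      mul_comm := fun x y => Subtype.ext (hab x.1 x.2 y.1 y.2) }
  have key : ∀ (k : ℕ) (g₀ : K), g₀⁻¹ * b ^ k * g₀ ∈ P → g₀⁻¹ * b ^ k * g₀ = b ^ k := by
    intro k g₀ _
    have : Commute g₀ (b ^ k) := (show Commute g₀ b from hc g₀).pow_right k
    rw [mul_assoc, ← this.eq, inv_mul_cancel_left]
  have h1 := MonoidHom.transfer_eq_pow (MonoidHom.id P) b key
  have h2 : MonoidHom.transfer (MonoidHom.id P) b = 1 :=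
    Abelianization.commutator_subset_ker _ hb
  rw [h2] at h1
  exact (congrArg Subtype.val h1).symm

theorem pow_relIndex_eq_one {H : Type v} [Group H] [Finite H] (B K : Subgroup H)
    (hab : ∀ x ∈ B, ∀ y ∈ B, x * y = y * x) (b : H) (hb : b ∈ ⁅K, K⁆)
    (hc : ∀ g ∈ K, g * b = b * g) : b ^ B.relIndex K = 1 := by
  rw [← Subgroup.map_subtype_commutator] at hb
  obtain ⟨b', hb', rfl⟩ := hb
  have := pow_index_eq_one (B.subgroupOf K)
    (fun x hx y hy => Subtype.ext (hab _ hx _ hy)) b' hb'
    (fun g => Subtype.ext (hc _ g.2))
  have h2 := congrArg Subtype.val this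
  simpa [Subgroup.relIndex] using h2

theorem prime_dvd_relIndex {H : Type v} [Group H] [Finite H] (B K : Subgroup H) [hB : B.Normal]
    {N : ℕ} (hpow : ∀ x : H, x ^ N ∈ B) (p : ℕ) (hp : p.Prime) (hd : p ∣ B.relIndex K) :
    p ∣ N := by
  have : Fact p.Prime := ⟨hp⟩
  have hd' : p ∣ Nat.card (K ⧸ B.subgroupOf K) := hd
  obtain ⟨x, hx⟩ := exists_prime_orderOf_dvd_card' (G := K ⧸ B.subgroupOf K) p hd'
  rw [← hx]
  apply orderOf_dvd_of_pow_eq_one
  obtain ⟨y, rfl⟩ := QuotientGroup.mk_surjective x
  rw [← QuotientGroup.mk_pow, QuotientGroup.eq_one_iff, Subgroup.mem_subgroupOf]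
  simpa using hpow y

theorem finite_case {G : Type u} [Group G] {N q : ℕ} (hq : Nat.Coprime q N) (m : ℕ) :
    ∀ (H : Type v) [Group H] [Finite H], Nat.card H = m → ∀ (B : Subgroup H) [B.Normal],
      (∀ x ∈ B, ∀ y ∈ B, x * y = y * x) → (∀ x : H, x ^ N ∈ B) → (∀ c ∈ B, c ^ q = 1) →
      (∀ (h : Fin (N + 1) → H) (z : ℕ → H), ∀ c ∈ B, chain h (prs (N + 1)) z c = 1) →
      (∀ x : FreeGroup (Fin (N + 1)), (∀ f : Fin (N + 1) → G, FreeGroup.lift f x = 1) →
        ∀ f : Fin (N + 1) → H, FreeGroup.lift f x = 1) →
      ∀ x : FreeGroup ℕ, (∀ f : ℕ → G, FreeGroup.lift f x = 1) →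
        ∀ h : ℕ → H, (FreeGroup.lift h x) ^ N = 1 := by
  induction m using Nat.strong_induction_on with
  | _ m ih =>
    intro H _ _ hm B hBn hab hpow hq1 hch hL x hx h
    by_contra hb
    set b : H := (FreeGroup.lift h x) ^ N with hbdef
    have hbB : b ∈ B := hpow _
    -- the monolith property
    have mono : ∀ V : Subgroup H, V.Normal → V ≤ B → V ≠ ⊥ → b ∈ V := by
      intro V hV hVB hV1
      have hsurj := QuotientGroup.mk'_surjective V
      have hcard : Nat.card (H ⧸ V) < m := by
        rw [← hm, V.card_eq_card_quotient_mul_card_subgroup]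
        have h1 : 1 < Nat.card V := (Subgroup.one_lt_card_iff_ne_bot V).2 hV1
        have h2 : 0 < Nat.card (H ⧸ V) := Nat.card_pos
        nlinarith
      have hBn' : (B.map (QuotientGroup.mk' V)).Normal := hBn.map _ hsurj
      have := ih _ hcard (H ⧸ V) rfl (B.map (QuotientGroup.mk' V)) ?_ ?_ ?_ ?_ ?_ x hx
        (fun i => QuotientGroup.mk' V (h i))
      · rw [← hom_lift, ← map_pow] at this
        exact (QuotientGroup.eq_one_iff _).1 this
      · rintro _ ⟨a, ha, rfl⟩ _ ⟨c, hc, rfl⟩
        rw [← map_mul, hab a ha c hc, map_mul]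
      · intro y
        obtain ⟨y, rfl⟩ := hsurj y
        rw [← map_pow]
        exact Subgroup.mem_map_of_mem _ (hpow y)
      · rintro _ ⟨c, hc, rfl⟩
        rw [← map_pow, hq1 c hc, map_one]
      · rintro f z _ ⟨c, hc, rfl⟩
        choose f' hf' using fun i => hsurj (f i)
        choose z' hz' using fun i => hsurj (z i)
        have e1 : f = fun i => QuotientGroup.mk' V (f' i) := funext fun i => (hf' i).symm
        have e2 : z = fun i => QuotientGroup.mk' V (z' i) := funext fun i => (hz' i).symm
        rw [e1, e2, ← chain_map, hch f' z' c hc, map_one]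
      · intro y hy f
        choose f' hf' using fun i => hsurj (f i)
        have e1 : f = fun i => QuotientGroup.mk' V (f' i) := funext fun i => (hf' i).symm
        rw [e1, ← hom_lift, hL y hy f', map_one]
    -- the monolith and its centralizer
    let M : Subgroup H := Subgroup.normalClosure {b}
    have hMB : M ≤ B := Subgroup.normalClosure_le_normal (by simpa using hbB)
    have hbM : b ∈ M := Subgroup.subset_normalClosure rfl
    let K : Subgroup H := Subgroup.centralizer (M : Set H)
    have hKn : K.Normal := inferInstance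
    have hKcard : Nat.card (H ⧸ K) ≤ N := by
      by_contra hlt
      push Not at hlt
      have : Fintype (H ⧸ K) := Fintype.ofFinite _
      obtain ⟨e⟩ : Nonempty (Fin (N + 1) ↪ H ⧸ K) := by
        apply Function.Embedding.nonempty_of_card_le
        rw [Fintype.card_fin, ← Nat.card_eq_fintype_card]; omega
      obtain ⟨z, hz⟩ := exists_chain_ne_one M (fun i => (e i).out) (prs (N + 1)) (by
        intro p hp c hc hc1
        by_contra hall
        push Not at hall
        have hcomm : ∀ z : H, ((e p.2).out)⁻¹ * (e p.1).out ∈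
            Subgroup.centralizer {z * c * z⁻¹} := by
          intro z
          have e0 := hall z
          unfold stp at e0
          rw [mul_inv_eq_one] at e0
          rw [Subgroup.mem_centralizer_iff]
          intro y hy
          rw [Set.mem_singleton_iff] at hy
          subst hy
          generalize z * c * z⁻¹ = y at *
          generalize (e p.1).out = g1 at *
          generalize (e p.2).out = g2 at *
          calc y * (g2⁻¹ * g1) = g2⁻¹ * (g2 * y * g2⁻¹) * g1 := by group
            _ = g2⁻¹ * (g1 * y * g1⁻¹) * g1 := by rw [e0]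
            _ = g2⁻¹ * g1 * y := by group
        have hcM : Subgroup.normalClosure {c} ≤ M :=
          Subgroup.normalClosure_le_normal (by simpa using hc)
        have hbc : b ∈ Subgroup.normalClosure {c} := by
          apply mono _ inferInstance (hcM.trans hMB)
          intro e0
          have : c ∈ Subgroup.normalClosure {c} := Subgroup.subset_normalClosure rfl
          rw [e0, Subgroup.mem_bot] at this
          exact hc1 this
        have hMc : M ≤ Subgroup.normalClosure {c} :=
          Subgroup.normalClosure_le_normal (by simpa using hbc)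
        have hin : ((e p.2).out)⁻¹ * (e p.1).out ∈ K := by
          have : Subgroup.normalClosure {c} ≤
              Subgroup.centralizer {((e p.2).out)⁻¹ * (e p.1).out} := by
            rw [Subgroup.normalClosure, Subgroup.closure_le]
            intro y hy
            rw [Group.mem_conjugatesOfSet_iff] at hy
            obtain ⟨a, ha, hy⟩ := hy
            rw [Set.mem_singleton_iff] at ha
            subst ha
            obtain ⟨z, rfl⟩ := isConj_iff.1 hy
            have := hcomm z
            rw [Subgroup.mem_centralizer_iff] at this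
            rw [SetLike.mem_coe, Subgroup.mem_centralizer_iff]
            intro t ht
            rw [Set.mem_singleton_iff] at ht
            subst ht
            exact (this _ rfl).symm
          rw [Subgroup.mem_centralizer_iff]
          intro y hy
          have := this (hMc hy)
          rw [Subgroup.mem_centralizer_iff] at this
          exact (this _ rfl).symm
        have : e p.2 = e p.1 := by
          rw [← QuotientGroup.out_eq' (e p.2), ← QuotientGroup.out_eq' (e p.1)]
          exact QuotientGroup.eq.2 hin
        exact (mem_prs p).1 hp (e.injective this).symm) hbM hb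
      exact hz (hch _ z b hbB)
    -- pass to the quotient by the derived subgroup of `K`
    have hbK : b ∈ ⁅K, K⁆ := by
      have hsurj := QuotientGroup.mk'_surjective ⁅K, K⁆
      have hKn' : (K.map (QuotientGroup.mk' ⁅K, K⁆)).Normal := hKn.map _ hsurj
      have hidx : Nat.card ((H ⧸ ⁅K, K⁆) ⧸ K.map (QuotientGroup.mk' ⁅K, K⁆)) ≤ N := by
        have : (K.map (QuotientGroup.mk' ⁅K, K⁆)).index = K.index :=
          Subgroup.index_map_eq _ hsurj (by
            rw [QuotientGroup.ker_mk']; exact Subgroup.commutator_le_self K)
        rw [← Subgroup.index_eq_card, this, Subgroup.index_eq_card]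
        exact hKcard
      have := laws_of_few (G := G) (K.map (QuotientGroup.mk' ⁅K, K⁆)) (by
          rintro _ ⟨a, ha, rfl⟩ _ ⟨c, hc, rfl⟩
          rw [← map_mul, ← map_mul]
          apply QuotientGroup.eq.2
          have : (a * c)⁻¹ * (c * a) = ⁅c⁻¹, a⁻¹⁆ := by
            rw [commutatorElement_def]; group
          rw [this]
          exact Subgroup.commutator_mem_commutator (K.inv_mem hc) (K.inv_mem ha)) hidx (by
          intro y hy f
          choose f' hf' using fun i => hsurj (f i)
          have e1 : f = fun i => QuotientGroup.mk' ⁅K, K⁆ (f' i) :=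
            funext fun i => (hf' i).symm
          rw [e1, ← hom_lift, hL y hy f', map_one]) x hx
        (fun i => QuotientGroup.mk' ⁅K, K⁆ (h i))
      rw [← hom_lift] at this
      exact Subgroup.pow_mem _ ((QuotientGroup.eq_one_iff _).1 this) N
    have hpw := pow_relIndex_eq_one B K hab b hbK (by
      intro g hg
      exact ((Subgroup.mem_centralizer_iff.1 hg) b hbM).symm)
    have hcop : Nat.Coprime (B.relIndex K) q := by
      apply Nat.Coprime.symm
      rw [Nat.coprime_iff_gcd_eq_one]
      by_contra hg
      obtain ⟨p, hp, hpd⟩ := Nat.exists_prime_and_dvd hg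
      have h1 : p ∣ q := hpd.trans (Nat.gcd_dvd_left _ _)
      have h2 : p ∣ B.relIndex K := hpd.trans (Nat.gcd_dvd_right _ _)
      have h3 := prime_dvd_relIndex B K hpow p hp h2
      have : p ∣ 1 := by
        rw [← hq]; exact Nat.dvd_gcd h1 h3
      exact hp.one_lt.ne' (Nat.dvd_one.1 this)
    have h1 : orderOf b ∣ B.relIndex K := orderOf_dvd_of_pow_eq_one hpw
    have h2 : orderOf b ∣ q := orderOf_dvd_of_pow_eq_one (hq1 b hbB)
    have h3 : orderOf b ∣ 1 := by
      rw [← hcop]; exact Nat.dvd_gcd h1 h2
    exact hb (orderOf_eq_one_iff.1 (Nat.dvd_one.1 h3))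

end Pool.Agent.FBT
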