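import Pool.Agent.FBT.Derive
import Pool.Agent.FBT.Derived

/-!
The laws in `n` variables of an abelian-by-finite group are consequences of finitely many of them.
-/

set_option autoImplicit false

namespace Pool.Agent.FBT

universe u v

open scoped commutatorElement

theorem subgroup_fg_of_comm (Q : Type u) [CommGroup Q] [Group.FG Q] (T : Subgroup Q) : T.FG := by
  have h1 : Module.Finite ℤ (Additive Q) := Module.Finite.iff_addGroup_fg.mpr inferInstance
  have h2 : IsNoetherian ℤ (Additive Q) := inferInstance
  have h3 : (AddSubgroup.toIntSubmodule (Subgroup.toAddSubgroup T)).FG :=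
    IsNoetherian.noetherian _
  rw [Submodule.fg_iff_addSubgroup_fg] at h3
  rw [Subgroup.fg_iff_add_fg]
  exact h3

theorem exists_finite_laws {G : Type u} [Group G] (A : Subgroup G) [hA : A.Normal]
    (hab : ∀ x ∈ A, ∀ y ∈ A, x * y = y * x) [hfin : Finite (G ⧸ A)] (n : ℕ) :
    ∃ T : Finset (FreeGroup (Fin n)),
      (∀ t ∈ T, ∀ f : Fin n → G, FreeGroup.lift f t = 1) ∧
      ∀ (H : Type v) [Group H], (∀ t ∈ T, ∀ f : Fin n → H, FreeGroup.lift f t = 1) →
        ∀ x : FreeGroup (Fin n), (∀ f : Fin n → G, FreeGroup.lift f x = 1) →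
          ∀ f : Fin n → H, FreeGroup.lift f x = 1 := by
  classical
  let W : Subgroup (FreeGroup (Fin n)) := ⨅ f : Fin n → G ⧸ A, (FreeGroup.lift f).ker
  let L : Subgroup (FreeGroup (Fin n)) := ⨅ f : Fin n → G, (FreeGroup.lift f).ker
  have memW : ∀ x, x ∈ W ↔ ∀ f : Fin n → G ⧸ A, FreeGroup.lift f x = 1 := fun x => by
    simp [W, Subgroup.mem_iInf]
  have memL : ∀ x, x ∈ L ↔ ∀ f : Fin n → G, FreeGroup.lift f x = 1 := fun x => by
    simp [L, Subgroup.mem_iInf]
  have hWfi : W.FiniteIndex := Subgroup.finiteIndex_iInf (fun f => Subgroup.finiteIndex_ker _)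
  have hWfg : Group.FG W := Subgroup.fg_of_index_ne_zero W
  have hLW : L ≤ W := by
    intro x hx
    rw [memW]
    intro f
    choose f' hf' using fun i => QuotientGroup.mk'_surjective A (f i)
    have e1 : f = fun i => QuotientGroup.mk' A (f' i) := funext fun i => (hf' i).symm
    rw [e1, ← hom_lift, (memL x).1 hx f', map_one]
  have hWL : ⁅W, W⁆ ≤ L := by
    rw [Subgroup.commutator_le]
    intro a ha b hb
    rw [memL]
    intro f
    have key : ∀ c ∈ W, FreeGroup.lift f c ∈ A := by
      intro c hc
      have := (memW c).1 hc (fun i => QuotientGroup.mk' A (f i))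
      rw [← hom_lift] at this
      exact (QuotientGroup.eq_one_iff _).1 this
    rw [map_commutatorElement, commutatorElement_eq_one_iff_mul_comm]
    exact hab _ (key a ha) _ (key b hb)
  -- generators of `W`
  obtain ⟨s, hs⟩ : ∃ s : Finset (FreeGroup (Fin n)), Subgroup.closure (s : Set _) = W :=
    (Group.fg_iff_subgroup_fg W).1 hWfg
  -- generators of `L` modulo the derived subgroup of `W`
  have hQfg : Group.FG (Abelianization W) := QuotientGroup.fg (commutator W)
  obtain ⟨r, hr⟩ : ∃ r : Finset (Abelianization W), Subgroup.closure (r : Set _)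
      = (L.subgroupOf W).map Abelianization.of :=
    subgroup_fg_of_comm (Abelianization W) ((L.subgroupOf W).map Abelianization.of)
  have hlift : ∀ y ∈ r, ∃ x : FreeGroup (Fin n), ∃ hx : x ∈ L,
      Abelianization.of (⟨x, hLW hx⟩ : W) = y := by
    intro y hy
    have h1 : y ∈ (L.subgroupOf W).map Abelianization.of := by
      rw [← hr]; exact Subgroup.subset_closure hy
    obtain ⟨z, hz, rfl⟩ := h1
    exact ⟨z.1, hz, rfl⟩
  choose! g hg hg' using hlift
  refine ⟨(r.image g) ∪ ((s ×ˢ s).image (fun p => ⁅p.1, p.2⁆)), ?_, ?_⟩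
  · intro t ht
    rw [Finset.mem_union] at ht
    rcases ht with ht | ht
    · obtain ⟨y, hy, rfl⟩ := Finset.mem_image.1 ht
      exact (memL _).1 (hg y hy)
    · obtain ⟨p, hp, rfl⟩ := Finset.mem_image.1 ht
      rw [Finset.mem_product] at hp
      have h1 : p.1 ∈ W := by rw [← hs]; exact Subgroup.subset_closure hp.1
      have h2 : p.2 ∈ W := by rw [← hs]; exact Subgroup.subset_closure hp.2
      exact (memL _).1 (hWL (Subgroup.commutator_mem_commutator h1 h2))
  · intro H _ hH x hx f
    have hWker : ⁅W, W⁆ ≤ (FreeGroup.lift f).ker := by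
      rw [← hs]
      apply commutator_closure_le
      intro a ha b hb
      rw [MonoidHom.mem_ker]
      apply hH
      rw [Finset.mem_union]
      exact Or.inr (Finset.mem_image.2 ⟨(a, b), Finset.mem_product.2 ⟨ha, hb⟩, rfl⟩)
    have hxL : x ∈ L := (memL x).2 hx
    have hxW : x ∈ W := hLW hxL
    have h1 : Abelianization.of (⟨x, hxW⟩ : W) ∈ (L.subgroupOf W).map Abelianization.of :=
      Subgroup.mem_map_of_mem _ hxL
    rw [← hr] at h1
    have key : ∀ y ∈ Subgroup.closure (r : Set (Abelianization W)), ∀ z : W,
        Abelianization.of z = y → FreeGroup.lift f z.1 = 1 := by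
      intro y hy
      induction hy using Subgroup.closure_induction with
      | mem y hy =>
        intro z hz
        have h2 := (hg' y hy).trans hz.symm
        have h3 : (⟨g y, hLW (hg y hy)⟩ : W)⁻¹ * z ∈ commutator W := QuotientGroup.eq.1 h2
        have h4 : (g y)⁻¹ * z.1 ∈ ⁅W, W⁆ := by
          rw [← Subgroup.map_subtype_commutator]
          exact ⟨_, h3, rfl⟩
        have h5 : FreeGroup.lift f ((g y)⁻¹ * z.1) = 1 := hWker h4
        have h6 : FreeGroup.lift f (g y) = 1 := by
          apply hH
          rw [Finset.mem_union]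
          exact Or.inl (Finset.mem_image.2 ⟨y, hy, rfl⟩)
        rw [map_mul, map_inv, h6, inv_one, one_mul] at h5
        exact h5
      | one =>
        intro z hz
        have h3 : z ∈ commutator W := by
          have : Abelianization.of (1 : W) = Abelianization.of z := by rw [hz, map_one]
          simpa using QuotientGroup.eq.1 this
        have h4 : z.1 ∈ ⁅W, W⁆ := by
          rw [← Subgroup.map_subtype_commutator]
          exact ⟨_, h3, rfl⟩
        exact hWker h4
      | mul a b ha hb iha ihb =>
        intro z hz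
        obtain ⟨za, hza⟩ : ∃ y, Abelianization.of y = a := QuotientGroup.mk_surjective a
        have h1 := iha za hza
        have h2 : Abelianization.of (za⁻¹ * z) = b := by
          rw [map_mul, map_inv, hza, hz, inv_mul_cancel_left]
        have h3 := ihb _ h2
        have h4 : FreeGroup.lift f ((za.1)⁻¹ * z.1) = 1 := h3
        rw [map_mul, map_inv, h1, inv_one, one_mul] at h4
        exact h4
      | inv a ha iha =>
        intro z hz
        have h2 : Abelianization.of z⁻¹ = a := by rw [map_inv, hz, inv_inv]
        have h3 : FreeGroup.lift f (z.1)⁻¹ = 1 := iha _ h2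
        rw [map_inv, inv_eq_one] at h3
        exact h3
    exact key _ h1 ⟨x, hxW⟩ rfl

end Pool.Agent.FBT
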