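import Pool.Agent.FBT.Fin
import Pool.Agent.FBT.Derived
import Pool.Agent.FBT.Abel

/-!
The general case: a group in which the finitely many laws hold satisfies every law of `G` up to
powers of `N`.
-/

set_option autoImplicit false

namespace Pool.Agent.FBT

universe u v

open scoped commutatorElement

/-- Values of `x ^ N` and of the derived word of depth `l`. -/
def cset (H : Type v) [Group H] (N l : ℕ) : Set H :=
  {x | (∃ y : H, y ^ N = x) ∨ ∃ f : ℕ → H, dd l f = x}

theorem cset_map {H : Type v} [Group H] {H' : Type*} [Group H'] (φ : H →* H') {N l : ℕ} {x : H}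
    (hx : x ∈ cset H N l) : φ x ∈ cset H' N l := by
  rcases hx with ⟨y, rfl⟩ | ⟨f, rfl⟩
  · exact Or.inl ⟨φ y, by rw [map_pow]⟩
  · exact Or.inr ⟨fun k => φ (f k), by rw [dd_map]⟩

theorem fg_case {G : Type u} [Group G] {N l : ℕ} (hN : 0 < N) (H : Type v) [Group H]
    [hfg : Group.FG H]
    (hcomm : ∀ x ∈ cset H N l, ∀ y ∈ cset H N l, ⁅x, y⁆ = 1)
    (hch : ∀ (h : Fin (N + 1) → H) (z : ℕ → H), ∀ c ∈ cset H N l, chain h (prs (N + 1)) z c = 1)
    (hL : ∀ x : FreeGroup (Fin (N + 1)), (∀ f : Fin (N + 1) → G, FreeGroup.lift f x = 1) →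
      ∀ f : Fin (N + 1) → H, FreeGroup.lift f x = 1)
    (x : FreeGroup ℕ) (hx : ∀ f : ℕ → G, FreeGroup.lift f x = 1) (h : ℕ → H) :
    ∃ k : ℕ, (FreeGroup.lift h x) ^ (N ^ k) = 1 := by
  set B : Subgroup H := Subgroup.closure (cset H N l) with hBdef
  have hBn : B.Normal := by
    apply closure_normal
    intro y hy g
    exact cset_map (MulAut.conj g).toMonoidHom hy
  have hab : ∀ a ∈ B, ∀ b ∈ B, a * b = b * a := by
    intro a ha b hb
    have h1 : ⁅B, B⁆ ≤ ⊥ := commutator_closure_le _ ⊥ (fun y hy z hz => by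
      rw [Subgroup.mem_bot]; exact hcomm y hy z hz)
    have h2 := h1 (Subgroup.commutator_mem_commutator ha hb)
    rw [Subgroup.mem_bot] at h2
    exact commutatorElement_eq_one_iff_mul_comm.1 h2
  have hpow : ∀ y : H, y ^ N ∈ B := fun y => Subgroup.subset_closure (Or.inl ⟨y, rfl⟩)
  have hder : derivedSeries H l ≤ B :=
    (derivedSeries_le_closure l).trans (Subgroup.closure_mono (fun y hy => Or.inr hy))
  have hchB : ∀ (h : Fin (N + 1) → H) (z : ℕ → H), ∀ c ∈ B, chain h (prs (N + 1)) z c = 1 := by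
    intro f z c hc
    induction hc using Subgroup.closure_induction with
    | mem c hc => exact hch f z c hc
    | one => exact chain_one _ _ _
    | mul a b ha hb h1 h2 => rw [chain_mul B hab f _ z ha hb, h1, h2, one_mul]
    | inv a ha h1 => rw [chain_inv B hab f _ z ha, h1, inv_one]
  have hfin : Finite (H ⧸ B) := by
    apply finite_of_fg_of_pow (H ⧸ B) N hN _ l
    · rw [← map_derivedSeries_eq (QuotientGroup.mk'_surjective B), Subgroup.map_eq_bot_iff,
        QuotientGroup.ker_mk']
      exact hder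
    · intro y
      obtain ⟨y, rfl⟩ := QuotientGroup.mk_surjective y
      rw [← QuotientGroup.mk_pow, QuotientGroup.eq_one_iff]
      exact hpow y
  have hBfi : B.FiniteIndex := Subgroup.finiteIndex_of_finite_quotient
  have hBfg : Group.FG B := Subgroup.fg_of_index_ne_zero B
  by_contra hall
  push Not at hall
  set b : H := (FreeGroup.lift h x) ^ N with hbdef
  have hb : ∀ k : ℕ, b ^ (N ^ k) ≠ 1 := by
    intro k
    rw [hbdef, ← pow_mul, ← pow_succ']
    exact hall (k + 1)
  let _ : CommGroup B :=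
    { (inferInstance : Group B) with
      mul_comm := fun x y => Subtype.ext (hab x.1 x.2 y.1 y.2) }
  obtain ⟨q, hq0, hq, hnot⟩ := exists_not_pow B N ⟨b, hpow _⟩ (fun k hk => hb k (by
    have := congrArg Subtype.val hk
    simpa using this))
  -- the subgroup of `q`-th powers
  let V : Subgroup H :=
    { carrier := {y | ∃ c ∈ B, c ^ q = y}
      mul_mem' := by
        rintro _ _ ⟨c, hc, rfl⟩ ⟨d, hd, rfl⟩
        exact ⟨c * d, B.mul_mem hc hd, (show Commute c d from hab c hc d hd).mul_pow q⟩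
      one_mem' := ⟨1, B.one_mem, one_pow q⟩
      inv_mem' := by
        rintro _ ⟨c, hc, rfl⟩
        exact ⟨c⁻¹, B.inv_mem hc, inv_pow c q⟩ }
  have hVn : V.Normal := by
    refine ⟨?_⟩
    rintro _ ⟨c, hc, rfl⟩ g
    exact ⟨g * c * g⁻¹, hBn.conj_mem c hc g, conj_pow⟩
  have hVB : V ≤ B := by
    rintro _ ⟨c, hc, rfl⟩
    exact B.pow_mem hc q
  have hsurj := QuotientGroup.mk'_surjective V
  have hfin2 : Finite (H ⧸ V) := by
    apply finite_of_fg_of_pow (H ⧸ V) (N * q) (Nat.mul_pos hN hq0) _ (l + 1)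
    · rw [← map_derivedSeries_eq hsurj, Subgroup.map_eq_bot_iff,
        QuotientGroup.ker_mk', derivedSeries_succ]
      refine (Subgroup.commutator_mono hder hder).trans ?_
      rw [Subgroup.commutator_le]
      intro a ha c hc
      have : ⁅a, c⁆ = 1 := commutatorElement_eq_one_iff_mul_comm.2 (hab a ha c hc)
      rw [this]; exact V.one_mem
    · intro y
      obtain ⟨y, rfl⟩ := QuotientGroup.mk_surjective y
      rw [← QuotientGroup.mk_pow, QuotientGroup.eq_one_iff, pow_mul]
      exact ⟨_, hpow y, rfl⟩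
  have hBn' : (B.map (QuotientGroup.mk' V)).Normal := hBn.map _ hsurj
  have := finite_case (G := G) hq _ (H ⧸ V) rfl (B.map (QuotientGroup.mk' V)) ?_ ?_ ?_ ?_ ?_ x hx
    (fun i => QuotientGroup.mk' V (h i))
  · rw [← hom_lift, ← map_pow] at this
    obtain ⟨c, hc, hcb⟩ := (QuotientGroup.eq_one_iff _).1 this
    exact hnot ⟨c, hc⟩ (Subtype.ext (by simpa using hcb))
  · rintro _ ⟨a, ha, rfl⟩ _ ⟨c, hc, rfl⟩
    rw [← map_mul, hab a ha c hc, map_mul]
  · intro y
    obtain ⟨y, rfl⟩ := hsurj y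
    rw [← map_pow]
    exact Subgroup.mem_map_of_mem _ (hpow y)
  · rintro _ ⟨c, hc, rfl⟩
    rw [← map_pow]
    exact (QuotientGroup.eq_one_iff _).2 ⟨c, hc, rfl⟩
  · rintro f z _ ⟨c, hc, rfl⟩
    choose f' hf' using fun i => hsurj (f i)
    choose z' hz' using fun i => hsurj (z i)
    have e1 : f = fun i => QuotientGroup.mk' V (f' i) := funext fun i => (hf' i).symm
    have e2 : z = fun i => QuotientGroup.mk' V (z' i) := funext fun i => (hz' i).symm
    rw [e1, e2, ← chain_map, hchB f' z' c hc, map_one]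
  · intro y hy f
    choose f' hf' using fun i => hsurj (f i)
    have e1 : f = fun i => QuotientGroup.mk' V (f' i) := funext fun i => (hf' i).symm
    rw [e1, ← hom_lift, hL y hy f', map_one]

theorem general_case {G : Type u} [Group G] {N l : ℕ} (hN : 0 < N) (H : Type v) [Group H]
    (hcomm : ∀ x ∈ cset H N l, ∀ y ∈ cset H N l, ⁅x, y⁆ = 1)
    (hch : ∀ (h : Fin (N + 1) → H) (z : ℕ → H), ∀ c ∈ cset H N l, chain h (prs (N + 1)) z c = 1)
    (hL : ∀ x : FreeGroup (Fin (N + 1)), (∀ f : Fin (N + 1) → G, FreeGroup.lift f x = 1) →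
      ∀ f : Fin (N + 1) → H, FreeGroup.lift f x = 1)
    (x : FreeGroup ℕ) (hx : ∀ f : ℕ → G, FreeGroup.lift f x = 1) (h : ℕ → H) :
    ∃ k : ℕ, (FreeGroup.lift h x) ^ (N ^ k) = 1 := by
  classical
  obtain ⟨s, hs⟩ := exists_letters.{v} x
  let H₁ : Subgroup H := Subgroup.closure (h '' (s : Set ℕ))
  have hfin : Finite (h '' (s : Set ℕ)) := (s.finite_toSet.image h).to_subtype
  have hfg : Group.FG H₁ := Group.closure_finite_fg _
  let h₁ : ℕ → H₁ := fun i =>
    if hi : i ∈ s then ⟨h i, Subgroup.subset_closure ⟨i, by simpa using hi, rfl⟩⟩ else 1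
  obtain ⟨k, hk⟩ := fg_case (G := G) (l := l) hN H₁
    (fun a ha b hb => by
      apply Subtype.ext
      have := hcomm _ (cset_map H₁.subtype ha) _ (cset_map H₁.subtype hb)
      rw [← map_commutatorElement] at this
      exact this)
    (fun f z c hc => by
      apply Subtype.ext
      have := hch (fun i => H₁.subtype (f i)) (fun i => H₁.subtype (z i)) _
        (cset_map H₁.subtype hc)
      rw [← chain_map] at this
      exact this)
    (fun y hy f => by
      apply Subtype.ext
      have := hL y hy (fun i => H₁.subtype (f i))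
      rw [← hom_lift] at this
      exact this) x hx h₁
  refine ⟨k, ?_⟩
  have h2 := congrArg H₁.subtype hk
  rw [map_pow, map_one, hom_lift] at h2
  rw [← h2, hs H h (fun i => H₁.subtype (h₁ i))]
  intro i hi
  simp [h₁, hi]

end Pool.Agent.FBT
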