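import Pool.Agent.FBT.General
import Pool.Agent.FBT.FinLaws

/-!
The finite set of words, and the main theorem.
-/

set_option autoImplicit false

namespace Pool.Agent.FBT

universe u v

open scoped commutatorElement

/-- The words `x ^ N` and the derived word of depth `l`. -/
def cw (N l : ℕ) : Bool → FreeGroup ℕ
  | false => FreeGroup.of 0 ^ N
  | true => dd l FreeGroup.of

theorem lift_cw_mem {H : Type v} [Group H] (N l : ℕ) (a : Bool) (f : ℕ → H) :
    FreeGroup.lift f (cw N l a) ∈ cset H N l := by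
  cases a with
  | false => exact Or.inl ⟨f 0, by simp [cw]⟩
  | true => exact Or.inr ⟨f, by simp [cw, dd_map]⟩

theorem exists_cw {H : Type v} [Group H] {N l : ℕ} {x : H} (hx : x ∈ cset H N l) :
    ∃ (a : Bool) (f : ℕ → H), FreeGroup.lift f (cw N l a) = x := by
  rcases hx with ⟨y, rfl⟩ | ⟨f, rfl⟩
  · exact ⟨false, fun _ => y, by simp [cw]⟩
  · exact ⟨true, f, by simp [cw, dd_map]⟩

/-- The commutator words. -/
def commW (N l : ℕ) (a b : Bool) : FreeGroup ℕ :=
  ⁅FreeGroup.map (fun i => 2 * i) (cw N l a), FreeGroup.map (fun i => 2 * i + 1) (cw N l b)⁆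

/-- The chain words. -/
def chainW (N l : ℕ) (a : Bool) : FreeGroup ℕ :=
  chain (fun i : Fin (N + 1) => FreeGroup.of (3 * (i : ℕ))) (prs (N + 1))
    (fun n => FreeGroup.of (3 * n + 1)) (FreeGroup.map (fun i => 3 * i + 2) (cw N l a))

theorem lift_commW {H : Type v} [Group H] (N l : ℕ) (a b : Bool) (f : ℕ → H) :
    FreeGroup.lift f (commW N l a b)
      = ⁅FreeGroup.lift (fun i => f (2 * i)) (cw N l a),
          FreeGroup.lift (fun i => f (2 * i + 1)) (cw N l b)⁆ := by
  rw [commW, map_commutatorElement, lift_map, lift_map]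

theorem lift_chainW {H : Type v} [Group H] (N l : ℕ) (a : Bool) (f : ℕ → H) :
    FreeGroup.lift f (chainW N l a)
      = chain (fun i : Fin (N + 1) => f (3 * (i : ℕ))) (prs (N + 1))
          (fun n => f (3 * n + 1)) (FreeGroup.lift (fun i => f (3 * i + 2)) (cw N l a)) := by
  rw [chainW, chain_map, lift_map]
  simp

theorem comm_of_laws {H : Type v} [Group H] {N l : ℕ}
    (h : ∀ (a b : Bool) (f : ℕ → H), FreeGroup.lift f (commW N l a b) = 1) :
    ∀ x ∈ cset H N l, ∀ y ∈ cset H N l, ⁅x, y⁆ = 1 := by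
  intro x hx y hy
  obtain ⟨a, f, rfl⟩ := exists_cw hx
  obtain ⟨b, g, rfl⟩ := exists_cw hy
  have h1 := h a b (fun k => if k % 2 = 0 then f (k / 2) else g (k / 2))
  rw [lift_commW] at h1
  have e1 : (fun i => (fun k => if k % 2 = 0 then f (k / 2) else g (k / 2)) (2 * i)) = f := by
    funext i; simp
  have e2 : (fun i => (fun k => if k % 2 = 0 then f (k / 2) else g (k / 2)) (2 * i + 1)) = g := by
    funext i
    have h1 : (2 * i + 1) % 2 = 1 := by omega
    have h2 : (2 * i + 1) / 2 = i := by omega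
    simp [h1, h2]
  rw [e1, e2] at h1
  exact h1

theorem chain_of_laws {H : Type v} [Group H] {N l : ℕ}
    (h : ∀ (a : Bool) (f : ℕ → H), FreeGroup.lift f (chainW N l a) = 1) :
    ∀ (g : Fin (N + 1) → H) (z : ℕ → H), ∀ c ∈ cset H N l, chain g (prs (N + 1)) z c = 1 := by
  intro g z c hc
  obtain ⟨a, f, rfl⟩ := exists_cw hc
  set F : ℕ → H := fun k => if k % 3 = 0 then (if hk : k / 3 < N + 1 then g ⟨k / 3, hk⟩ else 1)
    else if k % 3 = 1 then z (k / 3) else f (k / 3) with hF
  have h1 := h a F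
  rw [lift_chainW] at h1
  have e1 : (fun i : Fin (N + 1) => F (3 * (i : ℕ))) = g := by
    funext i
    have h1 : (3 * (i : ℕ)) % 3 = 0 := by omega
    have h2 : (3 * (i : ℕ)) / 3 = i := by omega
    have h3 : (3 * (i : ℕ)) / 3 < N + 1 := by rw [h2]; exact i.2
    have h4 : (⟨(3 * (i : ℕ)) / 3, h3⟩ : Fin (N + 1)) = i := Fin.ext h2
    simp only [hF]
    rw [if_pos h1, dif_pos h3, h4]
  have e2 : (fun n => F (3 * n + 1)) = z := by
    funext n
    have h1 : (3 * n + 1) % 3 = 1 := by omega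
    have h2 : (3 * n + 1) / 3 = n := by omega
    simp [hF, h1, h2]
  have e3 : (fun n => F (3 * n + 2)) = f := by
    funext n
    have h1 : (3 * n + 2) % 3 = 2 := by omega
    have h2 : (3 * n + 2) / 3 = n := by omega
    simp [hF, h1, h2]
  rw [e1, e2, e3] at h1
  exact h1

theorem main_semantic {G : Type u} [Group G] (A : Subgroup G) [hA : A.Normal]
    (hab : ∀ a ∈ A, ∀ b ∈ A, a * b = b * a) (hfin : Finite (G ⧸ A))
    (hsol : Group.IsSolvable (G ⧸ A)) :
    ∃ S : Finset (FreeGroup ℕ), (∀ s ∈ S, ∀ f : ℕ → G, FreeGroup.lift f s = 1) ∧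
      ∀ (H : Type v) [Group H], (∀ s ∈ S, ∀ f : ℕ → H, FreeGroup.lift f s = 1) →
        ∀ x : FreeGroup ℕ, (∀ f : ℕ → G, FreeGroup.lift f x = 1) →
          ∀ h : ℕ → H, ∃ k : ℕ, (FreeGroup.lift h x) ^ (Nat.card (G ⧸ A) ^ k) = 1 := by
  classical
  obtain ⟨l, hl⟩ := hsol.solvable
  set N := Nat.card (G ⧸ A) with hNdef
  have hN : 0 < N := Nat.card_pos
  obtain ⟨T, hT1, hT2⟩ := exists_finite_laws.{u, v} A hab (N + 1)
  have hcA : ∀ c ∈ cset G N l, c ∈ A := by
    rintro c (⟨y, rfl⟩ | ⟨f, rfl⟩)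
    · rw [← QuotientGroup.eq_one_iff, QuotientGroup.mk_pow, hNdef]
      exact pow_card_eq_one'
    · rw [← QuotientGroup.eq_one_iff]
      change QuotientGroup.mk' A (dd l f) = 1
      rw [dd_map, ← Subgroup.mem_bot, ← hl]
      exact dd_mem _ _
  refine ⟨(T.image (FreeGroup.map (fun i : Fin (N + 1) => (i : ℕ)))) ∪
    ((Finset.univ.image (fun p : Bool × Bool => commW N l p.1 p.2)) ∪
      (Finset.univ.image (fun a : Bool => chainW N l a))), ?_, ?_⟩
  · intro s hs f
    rw [Finset.mem_union, Finset.mem_union] at hs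
    rcases hs with hs | hs | hs
    · obtain ⟨t, ht, rfl⟩ := Finset.mem_image.1 hs
      rw [lift_map]
      exact hT1 t ht _
    · obtain ⟨p, _, rfl⟩ := Finset.mem_image.1 hs
      rw [lift_commW, commutatorElement_eq_one_iff_mul_comm]
      exact hab _ (hcA _ (lift_cw_mem _ _ _ _)) _ (hcA _ (lift_cw_mem _ _ _ _))
    · obtain ⟨a, _, rfl⟩ := Finset.mem_image.1 hs
      rw [lift_chainW]
      exact chain_prs_eq_one A hab (le_of_eq hNdef.symm) _ _ (hcA _ (lift_cw_mem _ _ _ _))
  · intro H _ hH x hx h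
    apply general_case (G := G) (l := l) hN H ?_ ?_ ?_ x hx h
    · apply comm_of_laws
      intro a b f
      apply hH
      rw [Finset.mem_union, Finset.mem_union]
      exact Or.inr (Or.inl (Finset.mem_image.2 ⟨(a, b), Finset.mem_univ _, rfl⟩))
    · apply chain_of_laws
      intro a f
      apply hH
      rw [Finset.mem_union, Finset.mem_union]
      exact Or.inr (Or.inr (Finset.mem_image.2 ⟨a, Finset.mem_univ _, rfl⟩))
    · apply hT2 H
      intro t ht f
      have h1 := hH (FreeGroup.map (fun i : Fin (N + 1) => (i : ℕ)) t) (by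
        rw [Finset.mem_union]
        exact Or.inl (Finset.mem_image.2 ⟨t, ht, rfl⟩))
        (fun k => if hk : k < N + 1 then f ⟨k, hk⟩ else 1)
      rw [lift_map] at h1
      have e1 : (fun i : Fin (N + 1) => (fun k : ℕ => if hk : k < N + 1 then f ⟨k, hk⟩ else 1)
          (i : ℕ)) = f := by
        funext i
        exact dif_pos i.2
      rw [e1] at h1
      exact h1

end Pool.Agent.FBT
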